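import Pool.Agent.helper7.UL.Spec

/-!
# Project ul (MP_62ffdf_lc): row HCV
-/

set_option autoImplicit false

namespace Pool.Agent.UL

open Finset

/-- One summand. -/
def HCV_c (P : ℕ → ℕ → ℕ → ℕ) (Q : ℕ → ℕ → ℕ) (A1 A2 ε j1 j2 c d : ℕ) : ℕ :=
  if A1 < A2 ∨ (A1 = A2 ∧ j1 < j2) then P ε c d
  else if A1 = A2 ∧ j1 = j2 then Q ε c else 0

/-- The general part. -/
def HCV_g (P : ℕ → ℕ → ℕ → ℕ) (Q : ℕ → ℕ → ℕ) (R o A J A1 j1 : ℕ) : ℕ :=
  let ε := if j1 ≤ J then 0 else 1
  let j2 := J + ε * o - j1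
  let A2 := A - A1 - ε
  if A1 + ε ≤ A then
    (if A1 < A2 ∨ (A1 = A2 ∧ j1 < j2) then P ε (cell R o j1 A1) (cell R o j2 A2)
    else if A1 = A2 ∧ j1 = j2 then Q ε (cell R o j1 A1) else 0)
  else 0

theorem HCV_row (R o : ℕ) (μ : (ℕ × ℕ) × ℕ → ℕ) (P : ℕ → ℕ → ℕ → ℕ) (Q : ℕ → ℕ → ℕ)
    (hP : ∀ (ε c d : ℕ) (acc : (ℕ × ℕ) × ℕ), ε ≤ 1 → c < 2 ^ (R + 4) → d < 2 ^ (R + 4) →
      μ (pairCov (fm R) ε (mkW R c) (mkW R d) acc) ≤ μ acc + P ε c d)
    (hQ : ∀ (ε c : ℕ) (acc : (ℕ × ℕ) × ℕ), ε ≤ 1 → c < 2 ^ (R + 4) →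
      μ (selfCov R (fm R) ε (mkW R c) acc) ≤ μ acc + Q ε c)
    (A1 A2 ε : ℕ) (hε : ε ≤ 1) (C D : ℕ → ℕ) (hC : ∀ j < o, C j < 2 ^ (R + 4))
    (hD : ∀ j < o, D j < 2 ^ (R + 4)) :
    ∀ (n j1 j2 : ℕ) (cs ds : List Wd) (acc : (ℕ × ℕ) × ℕ), j1 + n ≤ o → n ≤ j2 + 1 → j2 < o →
      cs.length = n → ds.length = n → (∀ k < n, cs[k]? = some (mkW R (C (j1 + k)))) →
      (∀ k < n, ds[k]? = some (mkW R (D (j2 - k)))) →
      μ (rowCov R A1 A2 ε j1 j2 cs ds acc) ≤
        μ acc + ∑ k ∈ range n, HCV_c P Q A1 A2 ε (j1 + k) (j2 - k) (C (j1 + k)) (D (j2 - k)) := by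
  intro n
  induction n with
  | zero =>
    intro j1 j2 cs ds acc _ _ _ h1 h2 _ _
    rw [List.length_eq_zero_iff] at h1 h2
    subst h1 h2
    simp [rowCov]
  | succ n ih =>
    intro j1 j2 cs ds acc b1 b2 b3 h1 h2 h3 h4
    obtain ⟨c, cs, rfl⟩ := List.exists_cons_of_length_eq_add_one h1
    obtain ⟨d, ds, rfl⟩ := List.exists_cons_of_length_eq_add_one h2
    have hc : c = mkW R (C j1) := by
      have := h3 0 (by omega)
      rw [List.getElem?_cons_zero] at this
      exact Option.some.inj this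
    have hd : d = mkW R (D j2) := by
      have := h4 0 (by omega)
      rw [List.getElem?_cons_zero] at this
      exact Option.some.inj this
    subst hc hd
    rw [List.length_cons] at h1 h2
    have key : ∀ acc' : (ℕ × ℕ) × ℕ, μ (rowCov R A1 A2 ε (j1 + 1) (j2 - 1) cs ds acc') ≤
        μ acc' + ∑ k ∈ range n, HCV_c P Q A1 A2 ε (j1 + (k + 1)) (j2 - (k + 1))
          (C (j1 + (k + 1))) (D (j2 - (k + 1))) := by
      intro acc'
      have := ih (j1 + 1) (j2 - 1) cs ds acc' (by omega) (by omega) (by omega) (by omega) (by omega)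
        (by
          intro k hk
          have h5 := h3 (k + 1) (by omega)
          rw [List.getElem?_cons_succ] at h5
          rw [h5, show j1 + (k + 1) = j1 + 1 + k by ring])
        (by
          intro k hk
          have h5 := h4 (k + 1) (by omega)
          rw [List.getElem?_cons_succ] at h5
          rw [h5, show j2 - (k + 1) = j2 - 1 - k by omega])
      refine this.trans (le_of_eq ?_)
      congr 1
      refine Finset.sum_congr rfl fun k _ => ?_
      rw [show j1 + (k + 1) = j1 + 1 + k by ring, show j2 - (k + 1) = j2 - 1 - k by omega]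
    rw [Finset.sum_range_succ']
    show μ (rowCov R A1 A2 ε (j1 + 1) (j2 - 1) cs ds
      (if A1 < A2 || (A1 == A2 && j1 < j2) then pairCov (fm R) ε (mkW R (C j1)) (mkW R (D j2)) acc
        else if A1 == A2 && j1 == j2 then selfCov R (fm R) ε (mkW R (C j1)) acc else acc)) ≤ _
    refine (key _).trans ?_
    have hstep : μ (if A1 < A2 || (A1 == A2 && j1 < j2)
        then pairCov (fm R) ε (mkW R (C j1)) (mkW R (D j2)) acc
        else if A1 == A2 && j1 == j2 then selfCov R (fm R) ε (mkW R (C j1)) acc else acc) ≤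
        μ acc + HCV_c P Q A1 A2 ε j1 j2 (C j1) (D j2) := by
      unfold HCV_c
      simp only [Bool.or_eq_true, decide_eq_true_eq, Bool.and_eq_true, beq_iff_eq]
      split_ifs
      · exact hP ε _ _ acc hε (hC _ (by omega)) (hD _ b3)
      · exact hQ ε _ acc hε (hC _ (by omega))
      · exact Nat.le_add_right _ _
    rw [Nat.add_zero, Nat.sub_zero]
    omega

theorem HCV_rowW (R o A : ℕ) : (rowW R o A).length = o ∧
    ∀ k < o, (rowW R o A)[k]? = some (mkW R (cell R o k A)) := by
  unfold rowW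
  refine ⟨by rw [List.length_map, List.length_range], ?_⟩
  intro k hk
  rw [List.getElem?_map, List.getElem?_range hk]
  rfl

theorem HCV_head (R o A J : ℕ) (hJ : J < o) (hcell : ∀ j < o, ∀ A, cell R o j A < 2 ^ (R + 4))
    (μ : (ℕ × ℕ) × ℕ → ℕ) (P : ℕ → ℕ → ℕ → ℕ) (Q : ℕ → ℕ → ℕ)
    (hP : ∀ (ε c d : ℕ) (acc : (ℕ × ℕ) × ℕ), ε ≤ 1 → c < 2 ^ (R + 4) → d < 2 ^ (R + 4) →
      μ (pairCov (fm R) ε (mkW R c) (mkW R d) acc) ≤ μ acc + P ε c d)
    (hQ : ∀ (ε c : ℕ) (acc : (ℕ × ℕ) × ℕ), ε ≤ 1 → c < 2 ^ (R + 4) →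
      μ (selfCov R (fm R) ε (mkW R c) acc) ≤ μ acc + Q ε c) :
    ∀ (m A1 : ℕ) (acc : (ℕ × ℕ) × ℕ),
      μ (headCov R o A J A1 ((List.range' A1 m).map (rowW R o))
        ((List.range' A1 (m + 1)).map fun k =>
          if k ≤ A then rowW R o (A - k) else List.replicate o (mkW R 0)) acc) ≤
      μ acc + ∑ i ∈ range m, ∑ j1 ∈ range o, HCV_g P Q R o A J (A1 + i) j1 := by
  intro m
  induction m with
  | zero =>
    intro A1 acc
    simp [headCov]
  | succ m ih =>
    intro A1 acc
    have e1 : (List.range' A1 (m + 1)).map (rowW R o) =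
        rowW R o A1 :: (List.range' (A1 + 1) m).map (rowW R o) := rfl
    have e2 : ((List.range' A1 (m + 1 + 1)).map fun k =>
          if k ≤ A then rowW R o (A - k) else List.replicate o (mkW R 0)) =
        (if A1 ≤ A then rowW R o (A - A1) else List.replicate o (mkW R 0)) ::
        ((List.range' (A1 + 1) (m + 1)).map fun k =>
          if k ≤ A then rowW R o (A - k) else List.replicate o (mkW R 0)) := rfl
    have e3 : ((List.range' (A1 + 1) (m + 1)).map fun k =>
          if k ≤ A then rowW R o (A - k) else List.replicate o (mkW R 0)) =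
        (if A1 + 1 ≤ A then rowW R o (A - (A1 + 1)) else List.replicate o (mkW R 0)) ::
        ((List.range' (A1 + 1 + 1) m).map fun k =>
          if k ≤ A then rowW R o (A - k) else List.replicate o (mkW R 0)) := rfl
    rw [Finset.sum_range_succ']
    have e0 : A1 + 0 = A1 := rfl
    rw [e0]
    have hsum : ∀ acc' : (ℕ × ℕ) × ℕ,
        μ (headCov R o A J (A1 + 1) ((List.range' (A1 + 1) m).map (rowW R o))
          ((List.range' (A1 + 1) (m + 1)).map fun k =>
            if k ≤ A then rowW R o (A - k) else List.replicate o (mkW R 0)) acc') ≤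
        μ acc' + ∑ i ∈ range m, ∑ j1 ∈ range o, HCV_g P Q R o A J (A1 + (i + 1)) j1 := by
      intro acc'
      refine (ih (A1 + 1) acc').trans (le_of_eq ?_)
      congr 1
      refine Finset.sum_congr rfl fun i _ => ?_
      rw [show A1 + (i + 1) = A1 + 1 + i by ring]
    -- the two parts of the sum over the columns
    have hsplit : ∑ j1 ∈ range o, HCV_g P Q R o A J A1 j1 =
        ∑ k ∈ range (J + 1), HCV_g P Q R o A J A1 k +
          ∑ k ∈ range (o - (J + 1)), HCV_g P Q R o A J A1 (J + 1 + k) := by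
      have h := Finset.sum_range_add (fun j1 => HCV_g P Q R o A J A1 j1) (J + 1) (o - (J + 1))
      rw [show J + 1 + (o - (J + 1)) = o by omega] at h
      exact h
    have r1 : ∀ acc' : (ℕ × ℕ) × ℕ, A1 ≤ A →
        μ (rowCov R A1 (A - A1) 0 0 J ((rowW R o A1).take (J + 1))
          ((rowW R o (A - A1)).take (J + 1)).reverse acc') ≤
        μ acc' + ∑ k ∈ range (J + 1), HCV_g P Q R o A J A1 k := by
      intro acc' hA
      obtain ⟨l1, l2⟩ := HCV_rowW R o A1
      obtain ⟨l3, l4⟩ := HCV_rowW R o (A - A1)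
      have := HCV_row R o μ P Q hP hQ A1 (A - A1) 0 (by omega) (fun j => cell R o j A1)
        (fun j => cell R o j (A - A1)) (fun j hj => hcell j hj _) (fun j hj => hcell j hj _) (J + 1) 0 J
        ((rowW R o A1).take (J + 1)) ((rowW R o (A - A1)).take (J + 1)).reverse acc'
        (by omega) (by omega) (by omega)
        (by rw [List.length_take, l1]; omega)
        (by rw [List.length_reverse, List.length_take, l3]; omega)
        (by
          intro k hk
          rw [List.getElem?_take_of_lt hk, l2 k (by omega), Nat.zero_add])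
        (by
          intro k hk
          rw [List.getElem?_reverse (by rw [List.length_take, l3]; omega), List.length_take, l3,
            List.getElem?_take_of_lt (by omega), l4 _ (by omega),
            show min (J + 1) o - 1 - k = J - k by omega])
      refine this.trans (le_of_eq ?_)
      congr 1
      refine Finset.sum_congr rfl fun k hk => ?_
      rw [Finset.mem_range] at hk
      unfold HCV_g HCV_c
      simp only [Nat.zero_add, Nat.add_zero, if_pos (show k ≤ J by omega), Nat.zero_mul, Nat.sub_zero,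
        if_pos hA]
    have r2 : ∀ acc' : (ℕ × ℕ) × ℕ, A1 + 1 ≤ A →
        μ (rowCov R A1 (A - A1 - 1) 1 (J + 1) (o - 1) ((rowW R o A1).drop (J + 1))
          ((rowW R o (A - (A1 + 1))).drop (J + 1)).reverse acc') ≤
        μ acc' + ∑ k ∈ range (o - (J + 1)), HCV_g P Q R o A J A1 (J + 1 + k) := by
      intro acc' hA
      obtain ⟨l1, l2⟩ := HCV_rowW R o A1
      obtain ⟨l3, l4⟩ := HCV_rowW R o (A - (A1 + 1))
      have := HCV_row R o μ P Q hP hQ A1 (A - A1 - 1) 1 le_rfl (fun j => cell R o j A1)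
        (fun j => cell R o j (A - (A1 + 1))) (fun j hj => hcell j hj _) (fun j hj => hcell j hj _)
        (o - (J + 1)) (J + 1) (o - 1)
        ((rowW R o A1).drop (J + 1)) ((rowW R o (A - (A1 + 1))).drop (J + 1)).reverse acc'
        (by omega) (by omega) (by omega)
        (by rw [List.length_drop, l1])
        (by rw [List.length_reverse, List.length_drop, l3])
        (by
          intro k hk
          rw [List.getElem?_drop, l2 _ (by omega)])
        (by
          intro k hk
          rw [List.getElem?_reverse (by rw [List.length_drop, l3]; omega), List.length_drop, l3,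
            List.getElem?_drop, l4 _ (by omega),
            show J + 1 + (o - (J + 1) - 1 - k) = o - 1 - k by omega])
      refine this.trans (le_of_eq ?_)
      congr 1
      refine Finset.sum_congr rfl fun k hk => ?_
      rw [Finset.mem_range] at hk
      unfold HCV_g HCV_c
      simp only [if_neg (show ¬(J + 1 + k ≤ J) by omega), Nat.one_mul, if_pos hA,
        show J + o - (J + 1 + k) = o - 1 - k by omega, show A - (A1 + 1) = A - A1 - 1 by omega]
    have z1 : ¬(A1 ≤ A) → ¬(A1 + 1 ≤ A) := by omega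
    rw [hsplit, e1, e2, e3]
    rw [e3] at hsum
    unfold headCov
    simp only
    split_ifs with c1 c3 c2 c2
    · exact Nat.le_add_right _ _
    · have h1 := r1 acc c2
      have h2 := r2 (rowCov R A1 (A - A1) 0 0 J ((rowW R o A1).take (J + 1))
          ((rowW R o (A - A1)).take (J + 1)).reverse acc) c3
      simp only [if_pos c3] at hsum
      refine (hsum _).trans ?_
      omega
    · omega
    · have h1 := r1 acc c2
      simp only [if_neg c3] at hsum
      refine (hsum _).trans ?_
      omega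
    · simp only [if_neg c3] at hsum
      refine (hsum _).trans ?_
      omega

theorem HCV (h1 : PCV_stmt) : HCV_stmt := by
  intro R o X A J β hR hcell hJ hβ
  have eh : headW R o X = (List.range' 0 (X + 1)).map (rowW R o) := by
    unfold headW
    rw [List.range_eq_range']
  have er : recW R o X A = (List.range' 0 (X + 1 + 1)).map fun k =>
      if k ≤ A then rowW R o (A - k) else List.replicate o (mkW R 0) := by
    unfold recW
    rw [List.range_eq_range']
  rw [eh, er]
  constructor
  · have h := HCV_head R o A J hJ hcell (fun acc => cnt β acc.1)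
      (fun ε c d => (nP R c d ((β : ℤ) - 2 * R - 1 + ε)).card)
      (fun ε c => (nS R c ((β : ℤ) - 2 * R - 1 + ε)).card)
      (fun ε c d acc h2 h3 h4 => (h1 R ε c d β acc hR h2 h3 h4 hβ).1)
      (fun ε c acc h2 h3 => (h1 R ε c c β acc hR h2 h3 h3 hβ).2.2.1) (X + 1) 0 ((0, 0), 0)
    refine h.trans (le_of_eq ?_)
    have h0 : cnt β ((0, 0) : ℕ × ℕ) = 0 := by simp [cnt]
    simp only [h0, Nat.zero_add]
    rfl
  · have h := HCV_head R o A J hJ hcell (fun acc => acc.2)
      (fun ε c d => (nB R c d).card + (nB R d c).card)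
      (fun ε c => (nB R c c).card)
      (fun ε c d acc h2 h3 h4 => by
        have := (h1 R ε c d β acc hR h2 h3 h4 hβ).2.1
        omega)
      (fun ε c acc h2 h3 => (h1 R ε c c β acc hR h2 h3 h3 hβ).2.2.2) (X + 1) 0 ((0, 0), 0)
    refine h.trans (le_of_eq ?_)
    simp only [Nat.zero_add]
    rfl

end Pool.Agent.UL
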