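import Pool.Agent.helper7.UL.Spec

/-!
# Project ul (MP_62ffdf_lc): row MCC
-/

set_option autoImplicit false

namespace Pool.Agent.UL

open Finset

theorem MCC_bit1 (n m β : ℕ) (hm : m ≤ n) (h1 : m ≤ β) (h2 : β < n) :
    (2 ^ n - 1 - (2 ^ m - 1)).testBit β = true := by
  have e : 2 ^ n - 1 - (2 ^ m - 1) = 2 ^ n - ((2 ^ m - 1) + 1) := by
    have := Nat.one_le_two_pow (n := m)
    omega
  have h3 : 2 ^ m - 1 < 2 ^ n := by
    have h4 : 2 ^ m ≤ 2 ^ n := Nat.pow_le_pow_right (by norm_num) hm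
    have := Nat.one_le_two_pow (n := m)
    omega
  rw [e, Nat.testBit_two_pow_sub_succ h3, Nat.testBit_two_pow_sub_one]
  simp only [Bool.and_eq_true, decide_eq_true_eq, Bool.not_eq_true', decide_eq_false_iff_not]
  omega

theorem MCC_bit2 (n m β : ℕ) (hm : m < n) (h1 : β ≠ m) (h2 : β < n) :
    (2 ^ n - 1 - 2 ^ m).testBit β = true := by
  have e : 2 ^ n - 1 - 2 ^ m = 2 ^ n - (2 ^ m + 1) := by omega
  have h3 : 2 ^ m < 2 ^ n := Nat.pow_lt_pow_right (by norm_num) hm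
  rw [e, Nat.testBit_two_pow_sub_succ h3, Nat.testBit_two_pow]
  simp only [Bool.and_eq_true, decide_eq_true_eq, Bool.not_eq_true', decide_eq_false_iff_not]
  omega

theorem MCC_bit0 (n β : ℕ) (h2 : β < n) : (2 ^ n - 1).testBit β = true := by
  rw [Nat.testBit_two_pow_sub_one]
  exact decide_eq_true h2

theorem MCC (h1 : RUN_stmt) (h2 : CHJ_stmt) (h3 : TWO_stmt) : MCC_stmt := by
  intro R o X S P N W hchk hW J hJ I hH
  obtain ⟨hT, -, -, -, hN1, hN2⟩ := h1 R o X S P N hchk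
  unfold Hand at hH
  rw [not_or, not_or, not_or] at hH
  obtain ⟨hI0, hI1, hI2, hI3⟩ := hH
  have hWpos : (0 : ℤ) < W := by omega
  have hq0 : 0 ≤ (I + 2 * R + 1) / (W : ℤ) := Int.ediv_nonneg (by omega) (by omega)
  obtain ⟨A, hA⟩ := Int.eq_ofNat_of_zero_le hq0
  have hdm := Int.emod_add_mul_ediv (I + 2 * R + 1) (W : ℤ)
  have hm0 := Int.emod_nonneg (I + 2 * R + 1) (show (W : ℤ) ≠ 0 by omega)
  have hm1 := Int.emod_lt_of_pos (I + 2 * R + 1) hWpos
  rw [hA] at hdm
  obtain ⟨r, hr⟩ := Int.eq_ofNat_of_zero_le hm0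
  rw [hr] at hdm hm1
  have hIr : I = (A : ℤ) * W + ((r : ℤ) - 2 * R - 1) := by
    have : (W : ℤ) * (A : ℤ) = (A : ℤ) * W := mul_comm _ _
    linarith
  have hRq : A = 0 → I = (r : ℤ) - 2 * R - 1 := by
    rintro rfl
    rw [hIr]
    push_cast
    ring
  have hRq1 : A = 1 → I = W + ((r : ℤ) - 2 * R - 1) := by
    rintro rfl
    rw [hIr]
    push_cast
    ring
  have hRq2 : A = 2 → I = 2 * W + ((r : ℤ) - 2 * R - 1) := by
    rintro rfl
    rw [hIr]
    push_cast
    ring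
  have hR8 := hT.hR
  have hreq : (req R A J).2 = true ∧ (r < 2 * R + 8 → (req R A J).1.testBit r = true) := by
    unfold req
    split_ifs with c1 c2 c3 c4 c5
    · exfalso
      have := hRq c1
      omega
    · have := hRq c1
      refine ⟨rfl, fun hr8 => MCC_bit1 _ _ _ (by omega) (by omega) hr8⟩
    · have := hRq c1
      refine ⟨rfl, fun hr8 => MCC_bit1 _ _ _ (by omega) (by omega) hr8⟩
    · have := hRq1 c4.1
      refine ⟨rfl, fun hr8 => MCC_bit1 _ _ _ (by omega) (by omega) hr8⟩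
    · have := hRq2 c5.1
      refine ⟨rfl, fun hr8 => MCC_bit2 _ _ _ (by omega) (by omega) hr8⟩
    · exact ⟨rfl, fun hr8 => MCC_bit0 _ _ hr8⟩
  by_cases hAN : A < N
  · obtain ⟨g1, g2⟩ := h2 R o W X A J hT hW hJ (hN1 A hAN J hJ)
    by_cases hr8 : r < 2 * R + 8
    · have := g1 r hr8 (hreq.2 hr8)
      rw [← hIr] at this
      exact this
    · have := g2 hreq.1 ((r : ℤ) - 2 * R - 1) (by omega) (by omega)
      rw [← hIr] at this
      exact this
  · obtain ⟨g1, g2⟩ := h3 R o W X A J hT hW hJ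
    obtain ⟨g3, g4⟩ := hN2 A (by omega) J hJ
    left
    by_cases hr8 : r < 2 * R + 8
    · have := g1 r hr8 (g3 r hr8)
      rw [← hIr] at this
      exact this
    · have := g2 g4 ((r : ℤ) - 2 * R - 1) (by omega) (by omega)
      rw [← hIr] at this
      exact this

end Pool.Agent.UL
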