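import Pool.Agent.helper7.UL.SpecN

/-!
# Project ul (MP_62ffdf_lc): row NSL
-/

set_option autoImplicit false

namespace Pool.Agent.UL

open FirstOrder Language Set

set_option backward.isDefEq.respectTransparency false in
theorem NSL_term (V : Set ℕ) (A : Set ℕ) {α : Type} [Fintype α] :
    letI := uStr V
    ∀ t : (LU[[A]]).Term α, ∃ (k : ℕ) (u : α → ℕ), ∀ (v : α → ℕ), t.realize v = k + u ⬝ᵥ v := by
  classical
  letI := uStr V
  intro t
  induction t with simp only [Term.realize]
  | var i =>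
    exact ⟨0, Pi.single i 1, by simp⟩
  | @func l f ts ih =>
    cases f with
    | inl f =>
      choose k u ih using ih
      cases f with
      | add =>
        refine ⟨k 0 + k 1, u 0 + u 1, fun v => ?_⟩
        rw [withConstants_funMap_sumInl, add_dotProduct, add_left_comm, add_assoc, add_left_comm,
          ← add_assoc]
        show (ts 0).realize v + (ts 1).realize v = _
        rw [ih, ih]
    | inr f =>
      cases l with
      | zero =>
        refine ⟨f, 0, fun v => ?_⟩
        rw [withConstants_funMap_sumInr, zero_dotProduct, add_zero]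
        rfl
      | succ => nomatch f

theorem NSL_rel (V : Set ℕ) (hV : UP V) (β : Type) [Fintype β] (k : ℕ) (u : β → ℕ) :
    IsSemilinearSet {v : β → ℕ | k + u ⬝ᵥ v ∈ V} := by
  have h1 : IsSemilinearSet {y : ℕ | k + y ∈ V} := by
    rw [Nat.isSemilinearSet_iff_ultimately_periodic]
    obtain ⟨k₀, p, hp, h⟩ := hV
    refine ⟨k₀, p, hp, fun x hx => ?_⟩
    have := h (k + x) (by omega)
    simp only [mem_ofPred_eq]
    rw [this, add_assoc]
  have h2 := h1.preimage
    (⟨⟨fun v : β → ℕ => u ⬝ᵥ v, dotProduct_zero u⟩, fun v w => dotProduct_add u v w⟩ : (β → ℕ) →+ ℕ)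
  exact h2

set_option backward.isDefEq.respectTransparency false in
theorem NSL_bounded (V : Set ℕ) (hV : UP V) (A : Set ℕ) {α : Type} [Finite α] :
    letI := uStr V
    ∀ (n : ℕ) (φ : (LU[[A]]).BoundedFormula α n),
      IsSemilinearSet {v : α ⊕ Fin n → ℕ | φ.Realize (v ∘ Sum.inl) (v ∘ Sum.inr)} := by
  letI := uStr V
  have := Fintype.ofFinite α
  intro n φ
  induction φ with simp only [BoundedFormula.Realize]
  | equal t₁ t₂ =>
    rcases NSL_term V A t₁ with ⟨k₁, u₁, ht₁⟩
    rcases NSL_term V A t₂ with ⟨k₂, u₂, ht₂⟩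
    have h := Nat.isSemilinearSet_setOfPred_mulVec_eq ![k₁] ![k₂] (.of ![u₁]) (.of ![u₂])
    have he : {v : α ⊕ Fin _ → ℕ | ![k₁] + (Matrix.of ![u₁]).mulVec v =
        ![k₂] + (Matrix.of ![u₂]).mulVec v} =
        {v | Term.realize (Sum.elim (v ∘ Sum.inl) (v ∘ Sum.inr)) t₁ =
          Term.realize (Sum.elim (v ∘ Sum.inl) (v ∘ Sum.inr)) t₂} := by
      ext v
      simp [ht₁, ht₂]
    rw [← he]
    exact h
  | rel R ts =>
    cases R with
    | inl R =>
      cases R with
      | mem =>
        rcases NSL_term V A (ts 0) with ⟨k, u, ht⟩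
        have h := NSL_rel V hV _ k u
        have he : {v : α ⊕ Fin _ → ℕ | k + u ⬝ᵥ v ∈ V} =
          {v | @Structure.RelMap (LU[[A]]) ℕ _ 1 (Sum.inl URel.mem)
            fun i => Term.realize (Sum.elim (v ∘ Sum.inl) (v ∘ Sum.inr)) (ts i)} := by
          ext v
          rw [mem_ofPred_eq, mem_ofPred_eq, withConstants_relMap_sumInl]
          show _ ↔ Term.realize (Sum.elim (v ∘ Sum.inl) (v ∘ Sum.inr)) (ts 0) ∈ V
          rw [ht, Sum.elim_comp_inl_inr]
        rw [← he]
        exact h
    | inr R => nomatch R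
  | falsum => exact .empty
  | imp _ _ ih₁ ih₂ =>
    have h := (ih₂.compl.inter ih₁).compl
    refine (congrArg IsSemilinearSet ?_).mp h
    ext v
    simp only [mem_compl_iff, mem_inter_iff, mem_ofPred_eq]
    tauto
  | @all n φ ih =>
    let e := (Equiv.sumAssoc α (Fin n) (Fin 1)).trans (Equiv.sumCongr (.refl α) finSumFinEquiv)
    rw [← isSemilinearSet_image_iff (LinearEquiv.funCongrLeft ℕ ℕ e)] at ih
    have h := ih.compl.proj.compl
    refine (congrArg IsSemilinearSet ?_).mp h
    ext v
    simp_rw [compl_ofPred, not_exists, Fin.forall_fin_succ_pi, Fin.forall_fin_zero_pi,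
      mem_compl_iff, mem_image, not_not, ← LinearEquiv.eq_symm_apply, LinearEquiv.funCongrLeft_symm,
      exists_eq_right, mem_ofPred, LinearEquiv.funCongrLeft_apply, LinearMap.funLeft,
      LinearMap.coe_mk, AddHom.coe_mk]
    refine forall_congr' fun a => ?_
    have e1 : (Sum.elim v (Fin.cons a finZeroElim) ∘ ⇑e.symm) ∘ Sum.inl = v ∘ Sum.inl := by
      funext i
      simp [e]
    have e2 : ((Sum.elim v (Fin.cons a finZeroElim) ∘ ⇑e.symm) ∘ Sum.inr : Fin (n + 1) → ℕ) =
        Fin.snoc (v ∘ Sum.inr) a := by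
      funext i
      cases i using Fin.lastCases <;> simp [e]
    rw [e1, e2]

theorem NSL : NSL_stmt := by
  intro V hV α _ s hs
  letI := uStr V
  obtain ⟨φ, rfl⟩ := hs
  let e := Equiv.sumEmpty α (Fin 0)
  have h := (NSL_bounded V hV Set.univ 0 φ).image (LinearMap.funLeft ℕ ℕ e.symm)
  refine (congrArg IsSemilinearSet ?_).mp h
  ext x
  simp only [mem_ofPred_eq, mem_image]
  rw [(e.arrowCongr (.refl ℕ)).exists_congr_left]
  simp [Formula.Realize, Unique.eq_default, Function.comp_def, LinearMap.funLeft, e]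

end Pool.Agent.UL
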