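import Pool.Agent.helper7.UL.Spec

/-!
# Project ul (MP_62ffdf_lc): row PCV
-/

set_option autoImplicit false

namespace Pool.Agent.UL

open Finset

theorem PCV_count (ss : List ℕ) (hn : ss.Nodup) (p : ℕ → Bool) (f : ℕ → ℤ) (T : Finset ℤ)
    (hf : Function.Injective f) (h : ∀ s ∈ ss, p s = true → f s ∈ T) : ss.countP p ≤ T.card := by
  rw [List.countP_eq_length_filter, ← List.toFinset_card_of_nodup (hn.filter p)]
  apply Finset.card_le_card_of_injOn f
  · intro s hs
    rw [Finset.mem_coe, List.mem_toFinset, List.mem_filter] at hs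
    exact Finset.mem_coe.2 (h s hs.1 hs.2)
  · intro x _ y _ hxy
    exact hf hxy

theorem PCV_wv (R c : ℕ) (b : ℕ) (hb : b ≤ R + 3) : wv R c ((b : ℤ) - R) = c.testBit b := by
  unfold wv
  rw [if_neg (by omega), if_neg (by omega)]
  congr 1
  omega

theorem PCV_right (R c : ℕ) (B : ℤ) (h : 3 < B) : wv R c B = c.testBit (R + 3) := by
  unfold wv
  rw [if_neg (by omega), if_pos h]

theorem PCV_left (R c : ℕ) (B : ℤ) (h : B < -(R : ℤ)) : wv R c B = c.testBit 0 := by
  unfold wv
  rw [if_pos h]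

/-- The elements of the list of `c`. -/
theorem PCV_list (h2 : BDN_stmt) (R c : ℕ) (hc : c < 2 ^ (R + 4)) :
    (mkW R c).bs.Nodup ∧ ∀ s ∈ (mkW R c).bs, s ≤ R + 3 ∧ (ess R c).testBit (R + 3 - s) = true ∧
      wv R c (3 - (s : ℤ)) = true := by
  obtain ⟨-, -, h3, h4⟩ := h2 R c hc
  obtain ⟨h5, h6, -, -⟩ := h2 R (ess R c) h4
  refine ⟨h5, ?_⟩
  intro s hs
  obtain ⟨h7, h8⟩ := (h6 s).1 hs
  refine ⟨h7, h8, ?_⟩
  have h9 := PCV_wv R c (R + 3 - s) (by omega)
  rw [show ((R + 3 - s : ℕ) : ℤ) - R = 3 - (s : ℤ) by omega] at h9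
  rw [h9]
  exact h3 _ h8

theorem PCV_nB (h2 : BDN_stmt) (R c d : ℕ) (hc : c < 2 ^ (R + 4)) :
    (if (mkW R d).r then (mkW R c).bs.length else 0) ≤ (nB R c d).card := by
  obtain ⟨h3, h4⟩ := PCV_list h2 R c hc
  split_ifs with h5
  · have h6 : (mkW R c).bs.length = (mkW R c).bs.countP (fun _ => true) := by
      rw [List.countP_true]
    rw [h6]
    refine PCV_count _ h3 _ (fun s => 3 - (s : ℤ)) _ ?_ ?_
    · intro x y hxy
      simp only at hxy
      omega
    · intro s hs _
      obtain ⟨h7, h8, h9⟩ := h4 s hs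
      unfold nB
      rw [Finset.mem_filter, Finset.mem_Icc]
      exact ⟨⟨by omega, by omega⟩, h9, h5⟩
  · exact Nat.zero_le _

theorem PCV (h1 : CVL_stmt) (h2 : BDN_stmt) (h3 : WID_stmt) : PCV_stmt := by
  intro R ε c d β acc hR hε hc hd hβ
  obtain ⟨lc1, lc2⟩ := PCV_list h2 R c hc
  obtain ⟨ld1, ld2⟩ := PCV_list h2 R d hd
  have inj1 : Function.Injective (fun s : ℕ => 3 - (s : ℤ)) := by
    intro x y hxy
    simp only at hxy
    omega
  obtain ⟨S, hS⟩ : ∃ S : ℤ, S = (β : ℤ) - 2 * R - 1 + ε := ⟨_, rfl⟩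
  rw [← hS]
  have inj2 : Function.Injective (fun s : ℕ => S - (3 - (s : ℤ))) := by
    intro x y hxy
    simp only at hxy
    omega
  refine ⟨?_, ?_, ?_, ?_⟩
  · -- the pairs
    have a1 := (h1 R (fm R) (mkW R d).wd ε β (mkW R c).bs acc.1).1
    have a2 := (h1 R (fm R) (mkW R c).wo ε β (mkW R d).bs
      (covL (fm R) (mkW R d).wd ε (mkW R c).bs acc.1)).1
    have n1 : (mkW R c).bs.countP (fun s => (mkW R d).wd.testBit (β + s + ε)) ≤
        ((nP R c d S).filter fun B => -(R : ℤ) ≤ B ∧ (ess R c).testBit (B + R).toNat = true).card := by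
      refine PCV_count _ lc1 _ (fun s => 3 - (s : ℤ)) _ inj1 ?_
      intro s hs hp
      obtain ⟨h7, h8, h9⟩ := lc2 s hs
      have h10 := (h3 R d hd (β + s + ε) (by omega)).1
      have h11 : (mkW R d).wd = wide R d := rfl
      rw [h11, h10] at hp
      have h12 : ((β + s + ε : ℕ) : ℤ) - 2 * R - 4 = S - (3 - (s : ℤ)) := by
        push_cast
        rw [hS]
        ring
      rw [h12] at hp
      unfold nP box
      rw [Finset.mem_filter, Finset.mem_filter, Finset.mem_Icc, Finset.mem_Icc]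
      refine ⟨⟨⟨by omega, by omega⟩, h9, hp, by omega, by omega⟩, by omega, ?_⟩
      rw [show (3 - (s : ℤ) + R).toNat = R + 3 - s by omega]
      exact h8
    have n2 : (mkW R d).bs.countP (fun s => (mkW R c).wo.testBit (β + s + ε)) ≤
        ((nP R c d S).filter fun B =>
          ¬(-(R : ℤ) ≤ B ∧ (ess R c).testBit (B + R).toNat = true)).card := by
      refine PCV_count _ ld1 _ (fun s => S - (3 - (s : ℤ))) _ inj2 ?_
      intro s hs hp
      obtain ⟨h7, h8, h9⟩ := ld2 s hs
      obtain ⟨h10, h13⟩ := (h3 R c hc (β + s + ε) (by omega)).2.1 hp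
      have h12 : ((β + s + ε : ℕ) : ℤ) - 2 * R - 4 = S - (3 - (s : ℤ)) := by
        push_cast
        rw [hS]
        ring
      rw [h12] at h10
      unfold nP box
      rw [Finset.mem_filter, Finset.mem_filter, Finset.mem_Icc, Finset.mem_Icc]
      refine ⟨⟨⟨by omega, by omega⟩, h10, ?_, by omega, by omega⟩, ?_⟩
      · rw [show S - (S - (3 - (s : ℤ))) = 3 - (s : ℤ) by ring]
        exact h9
      · rintro ⟨h14, h15⟩
        apply h13
        refine ⟨by omega, ?_⟩
        rw [show β + s + ε - (R + 4) = (S - (3 - (s : ℤ)) + R).toNat by omega]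
        exact h15
    have n3 := Finset.card_filter_add_card_filter_not (s := nP R c d S)
      (fun B => -(R : ℤ) ≤ B ∧ (ess R c).testBit (B + R).toNat = true)
    have a3 : cnt β (covL (fm R) (mkW R c).wo ε (mkW R d).bs
        (covL (fm R) (mkW R d).wd ε (mkW R c).bs acc.1)) ≤ cnt β acc.1 + (nP R c d S).card := by
      omega
    have a4 : cnt β (fm R, fm R) ≤ 2 := by
      unfold cnt
      split_ifs <;> omega
    have a5 : ∀ B₁ B₂ : ℤ, B₁ ≠ B₂ → B₁ ∈ nP R c d S → B₂ ∈ nP R c d S →
        2 ≤ (nP R c d S).card := by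
      intro B₁ B₂ hne hB1 hB2
      exact Finset.one_lt_card.2 ⟨B₁, hB1, B₂, hB2, hne⟩
    show cnt β (if ((mkW R c).r && (mkW R d).l) || ((mkW R c).l && (mkW R d).r) then (fm R, fm R)
      else covL (fm R) (mkW R c).wo ε (mkW R d).bs
        (covL (fm R) (mkW R d).wd ε (mkW R c).bs acc.1)) ≤ cnt β acc.1 + (nP R c d S).card
    split_ifs with h5
    · refine a4.trans (le_trans ?_ (Nat.le_add_left _ _))
      rw [Bool.or_eq_true, Bool.and_eq_true, Bool.and_eq_true] at h5
      rcases h5 with ⟨h6, h7⟩ | ⟨h6, h7⟩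
      · have h6' : c.testBit (R + 3) = true := h6
        have h7' : d.testBit 0 = true := h7
        have m : ∀ B : ℤ, (R : ℤ) + 10 ≤ B → B ≤ R + 11 → B ∈ nP R c d S := by
          intro B hB1 hB2
          unfold nP box
          rw [Finset.mem_filter, Finset.mem_Icc, Finset.mem_Icc]
          refine ⟨⟨by omega, by omega⟩, ?_, ?_, by omega, by omega⟩
          · rw [PCV_right R c B (by omega)]
            exact h6'
          · rw [PCV_left R d (S - B) (by omega)]
            exact h7'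
        exact a5 (R + 10) (R + 11) (by omega) (m _ (by omega) (by omega)) (m _ (by omega) (by omega))
      · have h6' : c.testBit 0 = true := h6
        have h7' : d.testBit (R + 3) = true := h7
        have m : ∀ B : ℤ, (R : ℤ) + 10 ≤ B → B ≤ R + 11 → S - B ∈ nP R c d S := by
          intro B hB1 hB2
          unfold nP box
          rw [Finset.mem_filter, Finset.mem_Icc, Finset.mem_Icc]
          refine ⟨⟨by omega, by omega⟩, ?_, ?_, by omega, by omega⟩
          · rw [PCV_left R c (S - B) (by omega)]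
            exact h6'
          · rw [PCV_right R d (S - (S - B)) (by omega)]
            exact h7'
        exact a5 (S - (R + 10)) (S - (R + 11)) (by omega) (m _ (by omega) (by omega))
          (m _ (by omega) (by omega))
    · exact a3
  · have b1 := PCV_nB h2 R c d hc
    have b2 := PCV_nB h2 R d c hd
    show acc.2 + (if (mkW R d).r then (mkW R c).bs.length else 0) +
      (if (mkW R c).r then (mkW R d).bs.length else 0) ≤ _
    omega
  · have a1 := (h1 R (fm R) (mkW R c).wd ε β (mkW R c).bs acc.1).2.2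
    refine a1.trans (Nat.add_le_add_left ?_ _)
    refine PCV_count _ lc1 _ (fun s => 3 - (s : ℤ)) _ inj1 ?_
    intro s hs hp
    rw [Bool.and_eq_true, decide_eq_true_eq] at hp
    obtain ⟨hp, hp2⟩ := hp
    obtain ⟨h7, h8, h9⟩ := lc2 s hs
    have h10 := (h3 R c hc (β + s + ε) (by omega)).1
    have h11 : (mkW R c).wd = wide R c := rfl
    rw [h11, h10] at hp
    have h12 : ((β + s + ε : ℕ) : ℤ) - 2 * R - 4 = S - (3 - (s : ℤ)) := by
      push_cast
      rw [hS]
      ring
    rw [h12] at hp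
    unfold nS box
    rw [Finset.mem_filter, Finset.mem_Icc, Finset.mem_Icc]
    exact ⟨⟨by omega, by omega⟩, h9, hp, ⟨by omega, by omega⟩, by omega⟩
  · have b1 := PCV_nB h2 R c c hc
    show acc.2 + (if (mkW R c).r then (mkW R c).bs.length else 0) ≤ _
    omega

end Pool.Agent.UL
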