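import Pool.Agent.helper7.UL.Spec

/-!
# Project ul (MP_62ffdf_lc): row STP
-/

set_option autoImplicit false

namespace Pool.Agent.UL

open Finset

theorem STP_up (n c : ℕ) (h : c < 2 ^ n) : up1 c < 2 ^ n := by
  unfold up1
  split_ifs with h0
  · positivity
  · have h1 := Nat.log2_self_le h0
    omega

theorem STP_bool (x y w x2 y2 : Bool) (N1 N2 : ℕ) (hx : x = true ↔ 1 ≤ N1) (hx2 : x2 = true ↔ 2 ≤ N1)
    (hy : y = true ↔ 1 ≤ N2) (hy2 : y2 = true ↔ 2 ≤ N2) :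
    ((((x ^^ y) ^^ w) ^^ ((x && y) && w)) ^^ ((((x ^^ y) ^^ w) ^^ ((x && y) && w)) && (x2 || y2))) = true
      ↔ N1 + N2 + (if w = true then 1 else 0) = 1 := by
  cases x <;> cases y <;> cases w <;> cases x2 <;> cases y2 <;> simp at * <;> omega

theorem STP (h1 : UPD_stmt) (h2 : DND_stmt) : STP_stmt := by
  intro R cm c0 c2 hm h0 hc2
  have hu : up1 cm < 2 ^ (R + 4) := STP_up _ _ hm
  have hd : dn1 R c0 < 2 ^ (R + 4) := (h2 R c0 0 h0 (by omega)).2.2.1
  refine ⟨?_, ?_, ?_⟩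
  · unfold step
    split_ifs with h
    · positivity
    · have hz : (up1 cm ^^^ dn1 R c0 ^^^ c2) ^^^ (up1 cm &&& dn1 R c0 &&& c2) < 2 ^ (R + 4) :=
        Nat.xor_lt_two_pow (Nat.xor_lt_two_pow (Nat.xor_lt_two_pow hu hd) hc2)
          (Nat.and_lt_two_pow _ hc2)
      exact Nat.xor_lt_two_pow hz (lt_of_le_of_lt Nat.and_le_left hz)
  · intro h
    unfold step
    rw [if_pos h]
  · intro h b hb
    obtain ⟨u1, u2⟩ := h1 (R + 4) cm b hm
    obtain ⟨d1, d2, -, -⟩ := h2 R c0 b h0 hb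
    unfold step
    rw [if_neg (by rw [h]; exact Bool.false_ne_true)]
    simp only [Nat.testBit_xor, Nat.testBit_and, Nat.testBit_or]
    exact STP_bool _ _ _ _ _ _ _ u1 u2 d1 d2

end Pool.Agent.UL
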